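import Pool.Agent.TH526.ZL.K
import Pool.Agent.U163.ZP.Few

/-!
Sets given by equations with non-vanishing corner coefficients at few primes (helper file).
-/

set_option autoImplicit false

open Function UpperHalfPlane H294ZP MvPolynomial Pool.Agent.W466.ZC Pool.Agent.TH526.ZL

namespace Pool.Agent.U163.ZP

/-- Scalings of a set given by equations, spread out at `L + 1` large primes. -/
theorem boxE (K : Subfield ℂ) {n m : ℕ} (R : Fin n → Polynomial (Polynomial K))
    (hR : ∀ i, (R i).Monic) {T : ℕ}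
    (hT : ∀ i u w, ((R i).coeff u).coeff w ≠ 0 → u ≤ T ∧ w ≤ T)
    (G : ∀ J : Finset (Fin n), MvPolynomial J K) (d : ∀ J : Finset (Fin n), J → ℕ)
    (hd : ∀ J : Finset (Fin n), J.card = m + 1 → ∀ u ∈ (G J).support, ∀ j, u j ≤ d J j)
    (hcor : ∀ J : Finset (Fin n), J.card = m + 1 → ∀ I : Finset J,
      (G J).coeff (corner (d J) I) ≠ 0) (Γ : Finset ℂ) (hΓ : ∀ γ ∈ Γ, γ ∈ K) :
    ∃ D : ℕ, ∀ (L : ℕ) (c : Fin n → ℕ), SpreadE L T D c →
      ∀ (r : ℕ) (cls : Fin n → Option (Fin r)) (dt : Fin n → ℕ) (x s : Fin n → ℂ),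
      (∀ i, 0 < dt i) →
      (∀ i, cls i = none → IsIntegral (Algebra.adjoin ℤ (Γ : Set ℂ)) (x i)) →
      (∀ i j l, cls i = some l → cls j = some l →
        IsIntegral (Algebra.adjoin ℤ {x i}) (x j) ∧
        Polynomial.eval₂ (Polynomial.aeval (x i) : Polynomial ℂ →ₐ[ℂ] ℂ).toRingHom (x j)
          (W282.ZP.Psi (dt i * dt j)) = 0) →
      (∀ i, Polynomial.eval₂ (Polynomial.aeval (x i) : Polynomial K →ₐ[K] ℂ).toRingHom (s i)
        (R i) = 0) →
      (∀ J : Finset (Fin n), J.card = m + 1 → aeval (fun j : J => (c j : ℂ) * s j) (G J) = 0) →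
      ∀ S : Finset (Fin n), AlgebraicIndependent K (fun i : S => x i) →
        L * (S.card + n) ≤ L * r + (L + 1) * m := by
  classical
  obtain ⟨D, hD⟩ := exists_val_data R G (fun γ : Γ => (⟨γ, hΓ γ γ.2⟩ : K))
  refine ⟨D, fun L c hc r cls dt x s hdt hconst hrel hRs hG S hS => ?_⟩
  obtain ⟨p, hp, hsq⟩ := hc
  choose V hV hVΓ hVR hVG hVx using fun l => hD (p l) (hp l).1 (hp l).2.1 S _ hS
  have hc0 : ∀ i, c i ≠ 0 := by
    intro i h0
    have h1 : 0 < (c i).factorization (p 0) := (hp 0).2.2 i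
    rw [h0] at h1
    simp at h1
  have hgood : ∀ l i, (V l).valuation ((c i : ℂ) * s i) = 1 →
      (V l).valuation (s i) * (V l).valuation (p l : ℂ) ^ (c i).factorization (p l) = 1 := by
    intro l i h1
    rw [map_mul, v_nat_pow' (V l) (hp l).1 (hV l) (hc0 i)] at h1
    rw [mul_comm]
    exact h1
  refine Pool.Agent.R424.FD.coreE (m := m) R hR hT (fun l i => (c i).factorization (p l))
    (fun l i => (hp l).2.2 i) hsq cls dt x s hdt ?_ hrel hRs S hS V
    (fun l => (V l).valuation (p l : ℂ)) hV ?_ hVR hVx ?_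
  · intro i hi
    obtain ⟨P, hP, hPe⟩ := hconst i hi
    have hle : ∀ z ∈ Algebra.adjoin ℤ (Γ : Set ℂ), z ∈ K := by
      intro z hz
      have h9 : Algebra.adjoin ℤ (Γ : Set ℂ) ≤ subalgebraOfSubring K.toSubring :=
        Algebra.adjoin_le fun g hg => hΓ g hg
      exact h9 hz
    let φ : Algebra.adjoin ℤ (Γ : Set ℂ) →+* K :=
      (algebraMap (Algebra.adjoin ℤ (Γ : Set ℂ)) ℂ).codRestrict K (fun a => hle a a.2)
    have h1 : IsIntegral K (x i) := by
      refine ⟨P.map φ, hP.map _, ?_⟩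
      rw [Polynomial.eval₂_map]
      exact hPe
    exact h1.isAlgebraic
  · intro l i hi
    refine (ValuationSubring.valuation_le_one_iff _ _).2
      (W466.ZC.mem_of_integral (V l) ?_ (hconst i hi))
    intro w hw
    have hle : Algebra.adjoin ℤ (Γ : Set ℂ) ≤ subalgebraOfSubring (V l).toSubring := by
      refine Algebra.adjoin_le ?_
      intro g hg
      exact (ValuationSubring.valuation_le_one_iff _ _).1 (hVΓ l ⟨g, hg⟩)
    exact hle hw
  · intro l
    refine ⟨Finset.univ.filter fun i => ¬ (V l).valuation ((c i : ℂ) * s i) = 1, ?_, ?_⟩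
    · by_contra h
      push Not at h
      obtain ⟨J, hJE, hJc⟩ := Finset.exists_subset_card_eq (Nat.succ_le_of_lt h)
      obtain ⟨j, hj⟩ := corner_unit (V l) (G J) (fun u hu => (hVG l _ u hu).le) (d J)
        (hd J hJc) (fun I => hVG l _ _ (mem_support_iff.2 (hcor J hJc I))) _ (hG J hJc)
      exact (Finset.mem_filter.1 (hJE j.2)).2 hj
    · intro i hi
      rw [Finset.mem_filter] at hi
      push Not at hi
      exact hgood l i (hi (Finset.mem_univ i))

end Pool.Agent.U163.ZP
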