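import Pool.Agent.U163.ZP.Elim

/-!
# Values composed of small primes: the general form
-/

set_option autoImplicit false

namespace Pool.Agent.U163.ZP

open MvPolynomial Finset Pool.Agent.N449.SP

variable {M N : ℕ}

/-- Outside of one proper closed subset of the variety of `P`, among any `r + 1` of the values
`F l (t)` at least one has a prime divisor larger than `D`. -/
theorem core2 (P : Ideal (MvPolynomial (Fin N) ℚ)) [hP : P.IsPrime] (r : ℕ) (hM : r + 1 ≤ M)
    (hr : Algebra.trdeg ℚ (MvPolynomial (Fin N) ℚ ⧸ P) ≤ r)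
    (F : Fin M → MvPolynomial (Fin N) ℤ)
    (hmul : ∀ s : Finset (Fin M), s.card = r + 1 → ∀ m m' : Fin M → ℕ,
      (∀ l, l ∉ s → m l = 0 ∧ m' l = 0) → m ≠ m' → ∀ α : ℚ,
      ∏ l, toQ (F l) ^ m l - C α * ∏ l, toQ (F l) ^ m' l ∉ P) (D : ℕ) :
    ∃ G ∉ P, ((∀ f ∈ P, ∀ j, homogeneousComponent j f ∈ P) →
        (∀ l, ∃ j, (F l).IsHomogeneous j) → ∃ j, G.IsHomogeneous j) ∧
      ∀ t : Fin N → ℤ, (∀ f ∈ P, eval (fun i => (t i : ℚ)) f = 0) →
        eval (fun i => (t i : ℚ)) G ≠ 0 →
        (∀ l, eval t (F l) ≠ 0) ∧ ∀ s : Finset (Fin M), s.card = r + 1 →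
          ∃ l ∈ s, ∃ p : ℕ, p.Prime ∧ D < p ∧ (p : ℤ) ∣ eval t (F l) := by
  classical
  set B' : ℕ := max D 2 with hB'
  have hmul' : ∀ s : Finset (Fin M), s.card = r + 1 → ∀ m m' : Fin M →₀ ℕ, m.support ⊆ s →
      m'.support ⊆ s → m ≠ m' → ∀ α : ℚ,
      ∏ l, toQ (F l) ^ m l - C α * ∏ l, toQ (F l) ^ m' l ∉ P := by
    intro s hs a a' ha ha' hne α
    exact hmul s hs a a'
      (fun l hl => ⟨Finsupp.notMem_support_iff.1 fun h => hl (ha h),
        Finsupp.notMem_support_iff.1 fun h => hl (ha' h)⟩)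
      (fun h => hne (DFunLike.coe_injective h)) α
  -- one set `s`
  have hone : ∀ s : Finset (Fin M), s.card = r + 1 → ∃ G ∉ P,
      ((∀ f ∈ P, ∀ j, homogeneousComponent j f ∈ P) → (∀ l, ∃ j, (F l).IsHomogeneous j) →
        ∃ j, G.IsHomogeneous j) ∧
      ∀ t : Fin N → ℤ, (∀ f ∈ P, eval (fun i => (t i : ℚ)) f = 0) →
      (∀ l ∈ s, eval t (F l) ≠ 0 ∧ ∀ p : ℕ, p.Prime → (p : ℤ) ∣ eval t (F l) → p ≤ B') →
      eval (fun i => (t i : ℚ)) G = 0 := by
    intro s hs
    obtain ⟨G, hG, hGE⟩ := elimF P r hr F s hs (hmul' s hs) B'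
    by_cases hcone : (∀ f ∈ P, ∀ j, homogeneousComponent j f ∈ P) ∧
        ∀ l, ∃ j, (F l).IsHomogeneous j
    · obtain ⟨hcone, hFh⟩ := hcone
      choose d hd using hFh
      have hval : ∀ (t : Fin N → ℤ) (k : ℕ) (l : Fin M),
          eval (fun i => 2 ^ k * t i) (F l) = (2 ^ k) ^ d l * eval t (F l) := by
        intro t k l
        have h1 : ((eval (fun i => 2 ^ k * t i) (F l) : ℤ) : ℚ) =
            (((2 ^ k) ^ d l * eval t (F l) : ℤ) : ℚ) := by
          rw [← eval_toQ]
          have h3 : (fun i => (((2 ^ k * t i : ℤ)) : ℚ)) = fun i => (2 : ℚ) ^ k * (t i : ℚ) := by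
            funext i
            push_cast
            ring
          rw [h3, eval_scale ((hd l).map _), eval_toQ]
          push_cast
          ring
        exact_mod_cast h1
      obtain ⟨G', hG', hj, hE⟩ := homog P hG
        {x | ∃ t : Fin N → ℤ, (∀ f ∈ P, eval (fun i => (t i : ℚ)) f = 0) ∧
          (∀ l ∈ s, eval t (F l) ≠ 0 ∧ ∀ p : ℕ, p.Prime → (p : ℤ) ∣ eval t (F l) → p ≤ B') ∧
          x = fun i => (t i : ℚ)}
        (by
          rintro _ ⟨t, h1, h2, rfl⟩
          exact hGE t h1 h2)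
        (by
          rintro _ ⟨t, h1, h2, rfl⟩ k
          refine ⟨fun i => 2 ^ k * t i, ?_, ?_, ?_⟩
          · intro f hf
            have h3 : (fun i => (((2 ^ k * t i : ℤ)) : ℚ)) = fun i => (2 : ℚ) ^ k * (t i : ℚ) := by
              funext i
              push_cast
              ring
            rw [h3, ← sum_homogeneousComponent f, map_sum]
            refine Finset.sum_eq_zero fun i _ => ?_
            rw [eval_scale (homogeneousComponent_isHomogeneous _ _), h1 _ (hcone f hf i), mul_zero]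
          · intro l hl
            obtain ⟨h4, h5⟩ := h2 l hl
            rw [hval]
            refine ⟨mul_ne_zero (pow_ne_zero _ (pow_ne_zero _ two_ne_zero)) h4, fun p hp hpd => ?_⟩
            rcases (Nat.prime_iff_prime_int.1 hp).dvd_or_dvd hpd with h6 | h6
            · have h7 := (Nat.prime_iff_prime_int.1 hp).dvd_of_dvd_pow
                ((Nat.prime_iff_prime_int.1 hp).dvd_of_dvd_pow h6)
              have h8 : p ∣ 2 := by exact_mod_cast h7
              exact (Nat.le_of_dvd two_pos h8).trans (le_max_right _ _)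
            · exact h5 p hp h6
          · funext i
            push_cast
            ring)
      refine ⟨G', hG', fun _ _ => hj, fun t h1 h2 => hE _ ⟨t, h1, h2, rfl⟩⟩
    · exact ⟨G, hG, fun h h' => absurd ⟨h, h'⟩ hcone, hGE⟩
  choose! Gs hGs1 hGs2 hGs3 using hone
  -- the functions are not zero on `V`
  have hX : ∀ l : Fin M, toQ (F l) ∉ P := by
    intro l hl
    obtain ⟨s, hls, hs⟩ : ∃ s : Finset (Fin M), {l} ⊆ s ∧ s.card = r + 1 := by
      obtain ⟨s, hs1, -, hs2⟩ := Finset.exists_subsuperset_card_eq (Finset.subset_univ {l})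
        (n := r + 1) (by rw [Finset.card_singleton]; omega)
        (by rw [Finset.card_univ, Fintype.card_fin]; omega)
      exact ⟨s, hs1, hs2⟩
    refine hmul' s hs (Finsupp.single l 1) 0 ?_ (by simp) ?_ 0 ?_
    · exact Finsupp.support_single_subset.trans hls
    · intro h
      have := DFunLike.congr_fun h l
      simp at this
    · rw [C_0, zero_mul, sub_zero]
      rw [Finset.prod_eq_single l]
      · rw [Finsupp.single_eq_same, pow_one]
        exact hl
      · intro l' _ hl'
        rw [Finsupp.single_eq_of_ne hl', pow_zero]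
      · intro h
        exact absurd (Finset.mem_univ l) h
  refine ⟨(∏ s ∈ (univ : Finset (Fin M)).powersetCard (r + 1), Gs s) * ∏ l, toQ (F l), ?_, ?_, ?_⟩
  · intro h
    rcases hP.mem_or_mem h with h1 | h1
    · obtain ⟨s, hs, h2⟩ := (hP.prod_mem_iff).1 h1
      exact hGs1 s (Finset.mem_powersetCard.1 hs).2 h2
    · obtain ⟨l, -, h2⟩ := (hP.prod_mem_iff).1 h1
      exact hX l h2
  · intro hcone hFh
    choose! d hd using fun s (hs : s.card = r + 1) => hGs2 s hs hcone hFh
    choose d' hd' using hFh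
    refine ⟨(∑ s ∈ (univ : Finset (Fin M)).powersetCard (r + 1), d s) + ∑ l : Fin M, d' l, ?_⟩
    refine IsHomogeneous.mul ?_ ?_
    · exact IsHomogeneous.prod _ _ _ fun s hs => hd s (Finset.mem_powersetCard.1 hs).2
    · exact IsHomogeneous.prod _ _ _ fun l _ => (hd' l).map _
  · intro t hV hG
    rw [map_mul, mul_ne_zero_iff, map_prod, map_prod, Finset.prod_ne_zero_iff,
      Finset.prod_ne_zero_iff] at hG
    obtain ⟨hG1, hG2⟩ := hG
    have ht0 : ∀ l, eval t (F l) ≠ 0 := by
      intro l h0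
      apply hG2 l (Finset.mem_univ l)
      rw [eval_toQ, h0, Int.cast_zero]
    refine ⟨ht0, fun s hs => ?_⟩
    by_contra hcon
    push Not at hcon
    apply hG1 s (Finset.mem_powersetCard.2 ⟨Finset.subset_univ _, hs⟩)
    refine hGs3 s hs t hV fun l hl => ⟨ht0 l, fun p hp hpd => ?_⟩
    by_contra hlt
    push Not at hlt
    exact hcon l hl p hp ((le_max_left _ _).trans_lt hlt) hpd

end Pool.Agent.U163.ZP
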