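import Mathlib
import Pool.Agent.N449.SP.Ints

/-!
# Points of a variety with `r + 1` coordinates which are `S`-units

`V` an irreducible affine variety of dimension at most `r`, such that the coordinates are
multiplicatively independent modulo constants. The integral points of `V` with `r + 1` coordinates
composed of primes `≤ B` are not Zariski dense in `V`.
-/

set_option autoImplicit false

namespace Pool.Agent.U163.ZP

open MvPolynomial Finset Pool.Agent.N449.SP

variable {M : ℕ}

/-- the part of a polynomial with monomials in `J` -/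
noncomputable def part (f : MvPolynomial (Fin M) ℚ) (J : Finset (Fin M →₀ ℕ)) :
    MvPolynomial (Fin M) ℚ :=
  ∑ m ∈ J, monomial m (coeff m f)

theorem coeff_part (f : MvPolynomial (Fin M) ℚ) (J : Finset (Fin M →₀ ℕ)) (m : Fin M →₀ ℕ) :
    coeff m (part f J) = if m ∈ J then coeff m f else 0 := by
  classical
  unfold part
  rw [coeff_sum]
  simp only [coeff_monomial]
  rw [Finset.sum_ite_eq']

theorem support_part (f : MvPolynomial (Fin M) ℚ) (J : Finset (Fin M →₀ ℕ)) (hJ : J ⊆ f.support) :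
    (part f J).support = J := by
  classical
  ext m
  rw [mem_support_iff, coeff_part]
  by_cases h : m ∈ J
  · rw [if_pos h]
    exact ⟨fun _ => h, fun _ => mem_support_iff.1 (hJ h)⟩
  · rw [if_neg h]
    exact ⟨fun h1 => absurd rfl h1, fun h1 => absurd h1 h⟩

/-- the term of the monomial `m` at `x` -/
noncomputable def term (f : MvPolynomial (Fin M) ℚ) (x : Fin M → ℚ) (m : Fin M →₀ ℕ) : ℚ :=
  coeff m f * m.prod fun i e => x i ^ e

theorem eval_part (f : MvPolynomial (Fin M) ℚ) (J : Finset (Fin M →₀ ℕ)) (x : Fin M → ℚ) :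
    eval x (part f J) = ∑ m ∈ J, term f x m := by
  unfold part term
  rw [map_sum]
  exact Finset.sum_congr rfl fun m _ => by rw [eval_monomial]

theorem part_support (f : MvPolynomial (Fin M) ℚ) : part f f.support = f :=
  (MvPolynomial.support_sum_monomial_coeff f)

theorem Pm_mul {Γ : Subgroup ℚˣ} {x y : ℚ} (hx : x ∈ Pm Γ) (hy : y ∈ Pm Γ) : x * y ∈ Pm Γ := by
  obtain ⟨u, hu, h1⟩ := hx
  obtain ⟨v, hv, h2⟩ := hy
  refine ⟨u * v, mul_mem hu hv, ?_⟩
  rw [Units.val_mul]
  rcases h1 with rfl | rfl <;> rcases h2 with rfl | rfl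
  · left; rfl
  · right; ring
  · right; ring
  · left; ring

theorem Pm_one (Γ : Subgroup ℚˣ) : (1 : ℚ) ∈ Pm Γ := ⟨1, one_mem _, Or.inl rfl⟩

theorem Pm_pow {Γ : Subgroup ℚˣ} {x : ℚ} (hx : x ∈ Pm Γ) (k : ℕ) : x ^ k ∈ Pm Γ := by
  induction k with
  | zero => rw [pow_zero]; exact Pm_one Γ
  | succ k ih => rw [pow_succ]; exact Pm_mul ih hx

theorem Pm_mono {Γ Δ : Subgroup ℚˣ} (h : Γ ≤ Δ) {x : ℚ} (hx : x ∈ Pm Γ) : x ∈ Pm Δ := by
  obtain ⟨u, hu, h1⟩ := hx
  exact ⟨u, h hu, h1⟩

theorem Pm_ne {Γ : Subgroup ℚˣ} {x : ℚ} (hx : x ∈ Pm Γ) : x ≠ 0 := by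
  obtain ⟨u, hu, rfl | rfl⟩ := hx
  · exact u.ne_zero
  · exact neg_ne_zero.2 u.ne_zero

/-- **Points with `S`-unit coordinates are not dense.** -/
theorem elim (P : Ideal (MvPolynomial (Fin M) ℚ)) [hP : P.IsPrime] (s : Finset (Fin M))
    (hs : s.Nonempty) (h1 : ∃ f ∈ P, f ≠ 0 ∧ ∀ m ∈ f.support, m.support ⊆ s)
    (h2 : ∀ m m' : Fin M →₀ ℕ, m.support ⊆ s → m'.support ⊆ s → m ≠ m' → ∀ α : ℚ,
      monomial m 1 - monomial m' α ∉ P) (B : ℕ) :
    ∃ G ∉ P, ∀ t : Fin M → ℤ, (∀ f ∈ P, eval (fun i => (t i : ℚ)) f = 0) →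
      (∀ l ∈ s, t l ≠ 0 ∧ ∀ p : ℕ, p.Prime → (p : ℤ) ∣ t l → p ≤ B) →
      eval (fun i => (t i : ℚ)) G = 0 := by
  classical
  -- no monomial in `s` is in `P`
  have hmon : ∀ m : Fin M →₀ ℕ, m.support ⊆ s → ∀ a : ℚ, a ≠ 0 → monomial m a ∉ P := by
    intro m hm a ha hmem
    obtain ⟨l, hl⟩ := hs
    have hne : m ≠ m + Finsupp.single l 1 := by
      intro h
      have := DFunLike.congr_fun h l
      rw [Finsupp.add_apply, Finsupp.single_eq_same] at this
      omega
    refine h2 m (m + Finsupp.single l 1) hm ?_ hne 0 ?_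
    · refine Finsupp.support_add.trans (Finset.union_subset hm ?_)
      exact Finsupp.support_single_subset.trans (Finset.singleton_subset_iff.2 hl)
    · rw [map_zero, sub_zero]
      have h3 := P.mul_mem_left (C a⁻¹) hmem
      rwa [C_mul_monomial, inv_mul_cancel₀ ha] at h3
  -- a relation with the smallest number of terms
  have hex : ∃ n : ℕ, ∃ f ∈ P, f ≠ 0 ∧ (∀ m ∈ f.support, m.support ⊆ s) ∧ f.support.card = n := by
    obtain ⟨f, hf, hf0, hfs⟩ := h1
    exact ⟨_, f, hf, hf0, hfs, rfl⟩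
  obtain ⟨f, hf, hf0, hfs, hfn⟩ := Nat.find_spec hex
  have hmin : ∀ g ∈ P, g ≠ 0 → (∀ m ∈ g.support, m.support ⊆ s) →
      f.support.card ≤ g.support.card := by
    intro g hg hg0 hgs
    rw [hfn]
    exact Nat.find_min' hex ⟨g, hg, hg0, hgs, rfl⟩
  -- at least two terms
  have hne : f.support.Nonempty := by
    rw [Finset.nonempty_iff_ne_empty]
    intro h
    exact hf0 (MvPolynomial.support_eq_empty.1 h)
  obtain ⟨m0, hm0⟩ := hne
  have hm1 : ∃ m1 ∈ f.support, m1 ≠ m0 := by
    by_contra hcon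
    push Not at hcon
    have h3 : f.support = {m0} := Finset.eq_singleton_iff_unique_mem.2 ⟨hm0, hcon⟩
    have h4 : f = monomial m0 (coeff m0 f) := by
      conv_lhs => rw [← part_support f, h3]
      unfold part
      rw [Finset.sum_singleton]
    apply hmon m0 (hfs m0 hm0) (coeff m0 f) (mem_support_iff.1 hm0)
    rwa [← h4]
  obtain ⟨m1, hm1, hm10⟩ := hm1
  -- the group
  set Δ : Subgroup ℚˣ := grp (Finset.range (B + 1)) ⊔
    Subgroup.closure {u : ℚˣ | ∃ m ∈ f.support, (u : ℚ) = coeff m f} with hΔ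
  have hfg : Δ.FG := by
    refine (grp_fg _).sup ?_
    refine (Subgroup.fg_iff _).2 ⟨_, rfl, ?_⟩
    have h3 : ((fun u : ℚˣ => (u : ℚ)) '' {u : ℚˣ | ∃ m ∈ f.support, (u : ℚ) = coeff m f}).Finite := by
      refine (f.support.finite_toSet.image (fun m => coeff m f)).subset ?_
      rintro _ ⟨u, ⟨m, hm, h⟩, rfl⟩
      exact ⟨m, hm, h.symm⟩
    exact h3.of_finite_image (Units.val_injective.injOn)
  obtain ⟨R, hR⟩ := ue_numberField ℚ Δ hfg f.support.card
  let e : Fin f.support.card ≃ f.support := (f.support.equivFin).symm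
  -- the polynomial
  let G1 : MvPolynomial (Fin M) ℚ := ∏ J ∈ (f.support.powerset.erase ∅).erase f.support, part f J
  let G2 : MvPolynomial (Fin M) ℚ := ∏ ρ ∈ R, (monomial m0 (coeff m0 f) - monomial m1 (ρ * coeff m1 f))
  refine ⟨G1 * G2, ?_, ?_⟩
  · intro hG
    rcases hP.mem_or_mem hG with h | h
    · obtain ⟨J, hJ, h3⟩ := (hP.prod_mem_iff).1 h
      rw [Finset.mem_erase, Finset.mem_erase, Finset.mem_powerset] at hJ
      obtain ⟨hJ1, hJ2, hJ3⟩ := hJ
      have h4 := support_part f J hJ3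
      have h5 : part f J ≠ 0 := by
        intro h0
        apply hJ2
        rw [← h4, h0]
        rfl
      have h6 := hmin _ h3 h5 (fun m hm => hfs m (hJ3 (h4 ▸ hm)))
      rw [h4] at h6
      exact hJ1 (Finset.eq_of_subset_of_card_le hJ3 h6)
    · obtain ⟨ρ, hρ, h3⟩ := (hP.prod_mem_iff).1 h
      have h0 : coeff m0 f ≠ 0 := mem_support_iff.1 hm0
      refine h2 m0 m1 (hfs m0 hm0) (hfs m1 hm1) (Ne.symm hm10) ((coeff m0 f)⁻¹ * (ρ * coeff m1 f)) ?_
      have h4 := P.mul_mem_left (C (coeff m0 f)⁻¹) h3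
      rw [mul_sub, C_mul_monomial, C_mul_monomial, inv_mul_cancel₀ h0] at h4
      exact h4
  · intro t hV ht
    set x : Fin M → ℚ := fun i => (t i : ℚ) with hx
    have hxΔ : ∀ l ∈ s, x l ∈ Pm Δ := by
      intro l hl
      obtain ⟨h0, h3⟩ := ht l hl
      rcases int_mem (Finset.range (B + 1)) (t l) (Or.inr fun p hp hpd =>
        Finset.mem_range.2 (Nat.lt_succ_of_le (h3 p hp hpd))) with h4 | h4
      · exact absurd (Int.cast_eq_zero.1 h4) h0
      · exact Pm_mono le_sup_left h4
    have hterm : ∀ m ∈ f.support, term f x m ∈ Pm Δ := by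
      intro m hm
      refine Pm_mul ?_ ?_
      · have h0 : coeff m f ≠ 0 := mem_support_iff.1 hm
        refine ⟨Units.mk0 _ h0, (le_sup_right : _ ≤ Δ) (Subgroup.subset_closure ⟨m, hm, rfl⟩),
          Or.inl rfl⟩
      · unfold Finsupp.prod
        have : ∀ T : Finset (Fin M), T ⊆ s → ∏ i ∈ T, x i ^ m i ∈ Pm Δ := by
          intro T
          induction T using Finset.induction_on with
          | empty => intro _; rw [Finset.prod_empty]; exact Pm_one Δ
          | insert a T ha ih =>
            intro hT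
            rw [Finset.prod_insert ha]
            exact Pm_mul (Pm_pow (hxΔ a (hT (Finset.mem_insert_self a T))) _)
              (ih ((Finset.subset_insert a T).trans hT))
        exact this _ (hfs m hm)
    have hsum : ∑ m ∈ f.support, term f x m = 0 := by
      rw [← eval_part, part_support]
      exact hV f hf
    rw [map_mul]
    by_cases hJ : ∃ J ∈ (f.support.powerset.erase ∅).erase f.support, ∑ m ∈ J, term f x m = 0
    · obtain ⟨J, hJ1, hJ2⟩ := hJ
      have : eval x G1 = 0 := by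
        change eval x (∏ J ∈ (f.support.powerset.erase ∅).erase f.support, part f J) = 0
        rw [map_prod]
        refine Finset.prod_eq_zero hJ1 ?_
        rw [eval_part]
        exact hJ2
      rw [this, zero_mul]
    · push Not at hJ
      have h3 := hR (fun i => term f x (e i)) (fun i => hterm _ (e i).2) (by
        rw [← hsum, ← Finset.sum_coe_sort f.support]
        exact Fintype.sum_equiv e _ _ fun i => rfl) (by
        intro J hJne hJ0
        by_contra hJu
        have h5 : ∑ m ∈ J.map (e.toEmbedding.trans (Function.Embedding.subtype _)), term f x m = 0 := by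
          rw [Finset.sum_map]
          exact hJ0
        refine hJ _ ?_ h5
        rw [Finset.mem_erase, Finset.mem_erase, Finset.mem_powerset]
        refine ⟨?_, ?_, ?_⟩
        · intro h6
          apply hJu
          rw [← Finset.card_eq_iff_eq_univ, Fintype.card_fin]
          have := congrArg Finset.card h6
          rwa [Finset.card_map] at this
        · intro h6
          rw [Finset.map_eq_empty] at h6
          exact hJne.ne_empty h6
        · intro m hm
          rw [Finset.mem_map] at hm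
          obtain ⟨i, -, rfl⟩ := hm
          exact (e i).2) (e.symm ⟨m0, hm0⟩) (e.symm ⟨m1, hm1⟩)
      simp only [Equiv.apply_symm_apply] at h3
      have h1ne : term f x m1 ≠ 0 := Pm_ne (hterm m1 hm1)
      have : eval x G2 = 0 := by
        change eval x (∏ ρ ∈ R, (monomial m0 (coeff m0 f) - monomial m1 (ρ * coeff m1 f))) = 0
        rw [map_prod]
        refine Finset.prod_eq_zero h3 ?_
        rw [map_sub, eval_monomial, eval_monomial]
        have h4 : term f x m0 = term f x m0 / term f x m1 * term f x m1 :=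
          (div_mul_cancel₀ _ h1ne).symm
        have h5 : coeff m0 f * m0.prod (fun i e => x i ^ e) = term f x m0 := rfl
        rw [h5, mul_assoc]
        have h6 : coeff m1 f * m1.prod (fun i e => x i ^ e) = term f x m1 := rfl
        rw [h6, ← h4, sub_self]
      rw [this, mul_zero]

end Pool.Agent.U163.ZP

namespace Pool.Agent.U163.ZP

open MvPolynomial Finset Pool.Agent.N449.SP

variable {M : ℕ}

theorem eval_scale {n : ℕ} {f : MvPolynomial (Fin M) ℚ} (hf : f.IsHomogeneous n) (c : ℚ)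
    (x : Fin M → ℚ) : eval (fun i => c * x i) f = c ^ n * eval x f := by
  classical
  rw [eval_eq', eval_eq', Finset.mul_sum]
  refine Finset.sum_congr rfl fun d hd => ?_
  have h1 : d.degree = n := by
    have := hf (mem_support_iff.1 hd)
    rwa [Finsupp.degree_eq_weight_one]
  have h2 : ∏ i, (c * x i) ^ d i = c ^ n * ∏ i, x i ^ d i := by
    simp_rw [mul_pow]
    rw [Finset.prod_mul_distrib, Finset.prod_pow_eq_pow_sum]
    congr 2
    rw [← h1, Finsupp.degree_eq_sum]
  rw [h2]
  ring

/-- Over a cone the polynomial can be taken homogeneous. -/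
theorem homog (P : Ideal (MvPolynomial (Fin M) ℚ)) {G : MvPolynomial (Fin M) ℚ} (hG : G ∉ P)
    (E : Set (Fin M → ℚ)) (hE : ∀ x ∈ E, eval x G = 0)
    (hsc : ∀ x ∈ E, ∀ k : ℕ, (fun i => (2 : ℚ) ^ k * x i) ∈ E) :
    ∃ G' ∉ P, (∃ j, G'.IsHomogeneous j) ∧ ∀ x ∈ E, eval x G' = 0 := by
  classical
  have h1 : ∃ j, homogeneousComponent j G ∉ P := by
    by_contra hcon
    push Not at hcon
    apply hG
    rw [← sum_homogeneousComponent G]
    exact P.sum_mem fun j _ => hcon j
  obtain ⟨j, hj⟩ := h1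
  refine ⟨_, hj, ⟨j, homogeneousComponent_isHomogeneous _ _⟩, fun x hx => ?_⟩
  let q : Polynomial ℚ := ∑ i ∈ range (G.totalDegree + 1),
    Polynomial.C (eval x (homogeneousComponent i G)) * Polynomial.X ^ i
  have hq : ∀ k : ℕ, q.eval ((2 : ℚ) ^ k) = 0 := by
    intro k
    have h2 := hE _ (hsc x hx k)
    rw [← sum_homogeneousComponent G, map_sum] at h2
    change Polynomial.eval _ (∑ i ∈ range (G.totalDegree + 1),
      Polynomial.C (eval x (homogeneousComponent i G)) * Polynomial.X ^ i) = 0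
    rw [Polynomial.eval_finsetSum, ← h2]
    refine Finset.sum_congr rfl fun i _ => ?_
    rw [eval_scale (homogeneousComponent_isHomogeneous _ _)]
    simp only [Polynomial.eval_mul, Polynomial.eval_C, Polynomial.eval_pow, Polynomial.eval_X]
    ring
  have hq0 : q = 0 := by
    refine Polynomial.eq_zero_of_infinite_isRoot q ?_
    refine Set.infinite_of_injective_forall_mem (f := fun k : ℕ => (2 : ℚ) ^ k) ?_ hq
    intro a b hab
    exact Nat.pow_right_injective (le_refl 2) (by
      have : ((2 ^ a : ℕ) : ℚ) = ((2 ^ b : ℕ) : ℚ) := by push_cast; exact hab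
      exact_mod_cast this)
  rcases lt_or_ge j (G.totalDegree + 1) with hlt | hge
  · have h3 : q.coeff j = eval x (homogeneousComponent j G) := by
      change Polynomial.coeff (∑ i ∈ range (G.totalDegree + 1),
        Polynomial.C (eval x (homogeneousComponent i G)) * Polynomial.X ^ i) j = _
      rw [Polynomial.finsetSum_coeff]
      simp only [Polynomial.coeff_C_mul, Polynomial.coeff_X_pow, mul_ite, mul_one, mul_zero]
      rw [Finset.sum_ite_eq, if_pos (Finset.mem_range.2 hlt)]
    rw [← h3, hq0, Polynomial.coeff_zero]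
  · rw [homogeneousComponent_eq_zero _ _ (by omega), map_zero]


variable {N : ℕ}

/-- the polynomial over the rational numbers -/
noncomputable abbrev toQ (f : MvPolynomial (Fin N) ℤ) : MvPolynomial (Fin N) ℚ :=
  map (Int.castRingHom ℚ) f

theorem eval_toQ (t : Fin N → ℤ) (f : MvPolynomial (Fin N) ℤ) :
    eval (fun i => (t i : ℚ)) (toQ f) = ((eval t f : ℤ) : ℚ) := by
  have h := MvPolynomial.map_eval (Int.castRingHom ℚ) t f
  exact h.symm

/-- The set of the points of `V` at which the values of the `F l`, `l ∈ s`, are composed of small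
primes is not dense. -/
theorem elimF (P : Ideal (MvPolynomial (Fin N) ℚ)) [hP : P.IsPrime] (r : ℕ)
    (hr : Algebra.trdeg ℚ (MvPolynomial (Fin N) ℚ ⧸ P) ≤ r)
    (F : Fin M → MvPolynomial (Fin N) ℤ) (s : Finset (Fin M)) (hs : s.card = r + 1)
    (hmul : ∀ m m' : Fin M →₀ ℕ, m.support ⊆ s → m'.support ⊆ s → m ≠ m' → ∀ α : ℚ,
      ∏ l, toQ (F l) ^ m l - C α * ∏ l, toQ (F l) ^ m' l ∉ P) (B : ℕ) :
    ∃ G ∉ P, ∀ t : Fin N → ℤ, (∀ f ∈ P, eval (fun i => (t i : ℚ)) f = 0) →
      (∀ l ∈ s, eval t (F l) ≠ 0 ∧ ∀ p : ℕ, p.Prime → (p : ℤ) ∣ eval t (F l) → p ≤ B) →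
      eval (fun i => (t i : ℚ)) G = 0 := by
  classical
  let φ : MvPolynomial (Fin M) ℚ →ₐ[ℚ] MvPolynomial (Fin N) ℚ := aeval fun l => toQ (F l)
  let P' : Ideal (MvPolynomial (Fin M) ℚ) := P.comap φ
  have hP' : P'.IsPrime := Ideal.comap_isPrime φ P
  have hφm : ∀ (m : Fin M →₀ ℕ) (a : ℚ), φ (monomial m a) = C a * ∏ l, toQ (F l) ^ m l := by
    intro m a
    change aeval _ (monomial m a) = _
    rw [aeval_monomial, MvPolynomial.algebraMap_eq, Finsupp.prod_fintype _ _ (fun i => pow_zero _)]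
  obtain ⟨G, hG, hGE⟩ := elim P' s (Finset.card_pos.1 (by omega)) (by
      -- algebraic dependence
      have hdep : ¬ AlgebraicIndependent ℚ
          (fun l : s => (Ideal.Quotient.mk P (toQ (F l)) : MvPolynomial (Fin N) ℚ ⧸ P)) := by
        intro h
        have h1 := h.cardinalMk_le_trdeg.trans hr
        rw [Cardinal.mk_coe_finset, hs] at h1
        have h2 : r + 1 ≤ r := by exact_mod_cast h1
        omega
      rw [algebraicIndependent_iff] at hdep
      push Not at hdep
      obtain ⟨f, hf, hf0⟩ := hdep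
      refine ⟨rename (fun l : s => (l : Fin M)) f, ?_, ?_, ?_⟩
      · change φ (rename _ f) ∈ P
        rw [← Ideal.Quotient.eq_zero_iff_mem]
        change Ideal.Quotient.mk P (aeval _ (rename _ f)) = 0
        rw [aeval_rename]
        have h3 : ∀ g : MvPolynomial s ℚ, Ideal.Quotient.mk P
            (aeval ((fun l => toQ (F l)) ∘ fun l : s => (l : Fin M)) g) =
            aeval (fun l : s => (Ideal.Quotient.mk P (toQ (F l)) : MvPolynomial (Fin N) ℚ ⧸ P)) g := by
          intro g
          have h4 := MvPolynomial.comp_aeval_apply (Ideal.Quotient.mkₐ ℚ P)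
            (f := (fun l => toQ (F l)) ∘ fun l : s => (l : Fin M)) (p := g)
          exact h4
        rw [h3]
        exact hf
      · intro h
        exact hf0 ((rename_injective _ Subtype.val_injective) (by rw [h, map_zero]))
      · intro m hm
        rw [support_rename_of_injective Subtype.val_injective, Finset.mem_image] at hm
        obtain ⟨m', -, rfl⟩ := hm
        intro l hl
        have h5 := Finsupp.mapDomain_support hl
        rw [Finset.mem_image] at h5
        obtain ⟨l', -, rfl⟩ := h5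
        exact l'.2)
    (by
      intro m m' hm hm' hne α hmem
      apply hmul m m' hm hm' hne α
      have h1 : φ (monomial m 1 - monomial m' α) ∈ P := hmem
      rw [map_sub, hφm, hφm, C_1, one_mul] at h1
      exact h1) B
  refine ⟨φ G, hG, fun t hV ht => ?_⟩
  have hcomp : ∀ f : MvPolynomial (Fin M) ℚ, eval (fun i => (t i : ℚ)) (φ f) =
      eval (fun l => ((eval t (F l) : ℤ) : ℚ)) f := by
    intro f
    change eval (fun i => (t i : ℚ)) (aeval _ f) = _
    rw [aeval_def, MvPolynomial.algebraMap_eq, eval_eval₂]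
    rw [eval]
    congr 1
    · ext x; simp
    · funext l
      exact eval_toQ t (F l)
  rw [hcomp]
  exact hGE _ (fun f hf => by rw [← hcomp]; exact hV _ hf) ht

/-- **Many values with exact large prime divisors.** `V` is the variety of the prime ideal `P`, of
dimension at most `r`; any `r + 1` of the functions `F l` are multiplicatively independent modulo
constants on `V`. -/
theorem core (P : Ideal (MvPolynomial (Fin N) ℚ)) [hP : P.IsPrime] (L r : ℕ) (hL : 0 < L)
    (hM : L + r ≤ M) (hr : Algebra.trdeg ℚ (MvPolynomial (Fin N) ℚ ⧸ P) ≤ r)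
    (F : Fin M → MvPolynomial (Fin N) ℤ)
    (hmul : ∀ s : Finset (Fin M), s.card = r + 1 → ∀ m m' : Fin M →₀ ℕ, m.support ⊆ s →
      m'.support ⊆ s → m ≠ m' → ∀ α : ℚ,
      ∏ l, toQ (F l) ^ m l - C α * ∏ l, toQ (F l) ^ m' l ∉ P)
    (U : Finset (Fin M)) (D B : ℕ) :
    ∃ G ∉ P, ((∀ f ∈ P, ∀ j, homogeneousComponent j f ∈ P) →
        (∀ l, ∃ j, (F l).IsHomogeneous j) → ∃ j, G.IsHomogeneous j) ∧
      ∀ t : Fin N → ℤ, (∀ f ∈ P, eval (fun i => (t i : ℚ)) f = 0) →
        (∀ l ∈ U, ∀ p : ℕ, p.Prime → (p : ℤ) ∣ eval t (F l) → p ≤ B) →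
        (∀ l l', l ≠ l' → ∀ p : ℕ, p.Prime → (p : ℤ) ∣ eval t (F l) → (p : ℤ) ∣ eval t (F l') →
          p ≤ B) →
        eval (fun i => (t i : ℚ)) G ≠ 0 →
        (∀ l, eval t (F l) ≠ 0) ∧ ∃ j : Fin L → Fin M, Function.Injective j ∧ (∀ a, j a ∉ U) ∧
          ∃ p : Fin L → ℕ, ∀ a, (p a).Prime ∧ D < p a ∧ (p a : ℤ) ∣ eval t (F (j a)) ∧
            ∀ l', l' ≠ j a → ¬ (p a : ℤ) ∣ eval t (F l') := by
  classical
  set B' : ℕ := max (max D B) 2 with hB'
  -- one set `s`
  have hone : ∀ s : Finset (Fin M), s.card = r + 1 → ∃ G ∉ P,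
      ((∀ f ∈ P, ∀ j, homogeneousComponent j f ∈ P) → (∀ l, ∃ j, (F l).IsHomogeneous j) →
        ∃ j, G.IsHomogeneous j) ∧
      ∀ t : Fin N → ℤ, (∀ f ∈ P, eval (fun i => (t i : ℚ)) f = 0) →
      (∀ l ∈ s, eval t (F l) ≠ 0 ∧ ∀ p : ℕ, p.Prime → (p : ℤ) ∣ eval t (F l) → p ≤ B') →
      eval (fun i => (t i : ℚ)) G = 0 := by
    intro s hs
    obtain ⟨G, hG, hGE⟩ := elimF P r hr F s hs (hmul s hs) B'
    by_cases hcone : (∀ f ∈ P, ∀ j, homogeneousComponent j f ∈ P) ∧
        ∀ l, ∃ j, (F l).IsHomogeneous j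
    · obtain ⟨hcone, hFh⟩ := hcone
      choose d hd using hFh
      have hval : ∀ (t : Fin N → ℤ) (k : ℕ) (l : Fin M),
          eval (fun i => 2 ^ k * t i) (F l) = (2 ^ k) ^ d l * eval t (F l) := by
        intro t k l
        have h1 : ((eval (fun i => 2 ^ k * t i) (F l) : ℤ) : ℚ) =
            (((2 ^ k) ^ d l * eval t (F l) : ℤ) : ℚ) := by
          rw [← eval_toQ]
          have h3 : (fun i => (((2 ^ k * t i : ℤ)) : ℚ)) = fun i => (2 : ℚ) ^ k * (t i : ℚ) := by
            funext i
            push_cast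
            ring
          rw [h3, eval_scale ((hd l).map _), eval_toQ]
          push_cast
          ring
        exact_mod_cast h1
      obtain ⟨G', hG', hj, hE⟩ := homog P hG
        {x | ∃ t : Fin N → ℤ, (∀ f ∈ P, eval (fun i => (t i : ℚ)) f = 0) ∧
          (∀ l ∈ s, eval t (F l) ≠ 0 ∧ ∀ p : ℕ, p.Prime → (p : ℤ) ∣ eval t (F l) → p ≤ B') ∧
          x = fun i => (t i : ℚ)}
        (by
          rintro _ ⟨t, h1, h2, rfl⟩
          exact hGE t h1 h2)
        (by
          rintro _ ⟨t, h1, h2, rfl⟩ k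
          refine ⟨fun i => 2 ^ k * t i, ?_, ?_, ?_⟩
          · intro f hf
            have h3 : (fun i => (((2 ^ k * t i : ℤ)) : ℚ)) = fun i => (2 : ℚ) ^ k * (t i : ℚ) := by
              funext i
              push_cast
              ring
            rw [h3, ← sum_homogeneousComponent f, map_sum]
            refine Finset.sum_eq_zero fun i _ => ?_
            rw [eval_scale (homogeneousComponent_isHomogeneous _ _), h1 _ (hcone f hf i), mul_zero]
          · intro l hl
            obtain ⟨h4, h5⟩ := h2 l hl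
            rw [hval]
            refine ⟨mul_ne_zero (pow_ne_zero _ (pow_ne_zero _ two_ne_zero)) h4, fun p hp hpd => ?_⟩
            rcases (Nat.prime_iff_prime_int.1 hp).dvd_or_dvd hpd with h6 | h6
            · have h7 := (Nat.prime_iff_prime_int.1 hp).dvd_of_dvd_pow
                ((Nat.prime_iff_prime_int.1 hp).dvd_of_dvd_pow h6)
              have h8 : p ∣ 2 := by exact_mod_cast h7
              exact (Nat.le_of_dvd two_pos h8).trans (le_max_right _ _)
            · exact h5 p hp h6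
          · funext i
            push_cast
            ring)
      refine ⟨G', hG', fun _ _ => hj, fun t h1 h2 => hE _ ⟨t, h1, h2, rfl⟩⟩
    · exact ⟨G, hG, fun h h' => absurd ⟨h, h'⟩ hcone, hGE⟩
  choose! Gs hGs1 hGs2 hGs3 using hone
  -- the functions are not zero on `V`
  have hX : ∀ l : Fin M, toQ (F l) ∉ P := by
    intro l hl
    obtain ⟨s, hls, hs⟩ : ∃ s : Finset (Fin M), {l} ⊆ s ∧ s.card = r + 1 := by
      obtain ⟨s, hs1, -, hs2⟩ := Finset.exists_subsuperset_card_eq (Finset.subset_univ {l})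
        (n := r + 1) (by rw [Finset.card_singleton]; omega)
        (by rw [Finset.card_univ, Fintype.card_fin]; omega)
      exact ⟨s, hs1, hs2⟩
    refine hmul s hs (Finsupp.single l 1) 0 ?_ (by simp) ?_ 0 ?_
    · exact Finsupp.support_single_subset.trans hls
    · intro h
      have := DFunLike.congr_fun h l
      simp at this
    · rw [C_0, zero_mul, sub_zero]
      rw [Finset.prod_eq_single l]
      · rw [Finsupp.single_eq_same, pow_one]
        exact hl
      · intro l' _ hl'
        rw [Finsupp.single_eq_of_ne hl', pow_zero]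
      · intro h
        exact absurd (Finset.mem_univ l) h
  refine ⟨(∏ s ∈ (univ : Finset (Fin M)).powersetCard (r + 1), Gs s) * ∏ l, toQ (F l), ?_, ?_, ?_⟩
  · intro h
    rcases hP.mem_or_mem h with h1 | h1
    · obtain ⟨s, hs, h2⟩ := (hP.prod_mem_iff).1 h1
      exact hGs1 s (Finset.mem_powersetCard.1 hs).2 h2
    · obtain ⟨l, -, h2⟩ := (hP.prod_mem_iff).1 h1
      exact hX l h2
  · intro hcone hFh
    choose! d hd using fun s (hs : s.card = r + 1) => hGs2 s hs hcone hFh
    choose d' hd' using hFh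
    refine ⟨(∑ s ∈ (univ : Finset (Fin M)).powersetCard (r + 1), d s) + ∑ l : Fin M, d' l, ?_⟩
    refine IsHomogeneous.mul ?_ ?_
    · exact IsHomogeneous.prod _ _ _ fun s hs => hd s (Finset.mem_powersetCard.1 hs).2
    · exact IsHomogeneous.prod _ _ _ fun l _ => (hd' l).map _
  · intro t hV hU hcop hG
    rw [map_mul, mul_ne_zero_iff, map_prod, map_prod, Finset.prod_ne_zero_iff,
      Finset.prod_ne_zero_iff] at hG
    obtain ⟨hG1, hG2⟩ := hG
    have ht0 : ∀ l, eval t (F l) ≠ 0 := by
      intro l h0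
      apply hG2 l (Finset.mem_univ l)
      rw [eval_toQ, h0, Int.cast_zero]
    refine ⟨ht0, ?_⟩
    let W : Finset (Fin M) := univ.filter fun l =>
      ∃ p : ℕ, p.Prime ∧ B' < p ∧ (p : ℤ) ∣ eval t (F l)
    have hW : L ≤ W.card := by
      have h1 : (univ \ W).card ≤ r := by
        by_contra hcon
        push Not at hcon
        obtain ⟨s, hs1, hs2⟩ := Finset.exists_subset_card_eq (show r + 1 ≤ (univ \ W).card from hcon)
        apply hG1 s (Finset.mem_powersetCard.2 ⟨Finset.subset_univ _, hs2⟩)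
        refine hGs3 s hs2 t hV fun l hl => ⟨ht0 l, fun p hp hpd => ?_⟩
        by_contra hlt
        push Not at hlt
        have h2 := hs1 hl
        rw [Finset.mem_sdiff, Finset.mem_filter] at h2
        exact h2.2 ⟨Finset.mem_univ _, p, hp, hlt, hpd⟩
      have h2 : (univ \ W).card + W.card = M := by
        rw [Finset.card_sdiff_add_card_eq_card (Finset.subset_univ _), Finset.card_univ,
          Fintype.card_fin]
      omega
    let j : Fin L → Fin M := fun a => W.orderEmbOfFin rfl (Fin.castLE hW a)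
    have hjW : ∀ a, j a ∈ W := fun a => Finset.orderEmbOfFin_mem _ _ _
    have hjp : ∀ a, ∃ p : ℕ, p.Prime ∧ B' < p ∧ (p : ℤ) ∣ eval t (F (j a)) := fun a =>
      (Finset.mem_filter.1 (hjW a)).2
    choose p hp1 hp2 hp3 using hjp
    have hBB : ∀ a, D < p a ∧ B < p a := by
      intro a
      have h1 := hp2 a
      have h2 : D ≤ B' := (le_max_left _ _).trans (le_max_left _ _)
      have h3 : B ≤ B' := (le_max_right _ _).trans (le_max_left _ _)
      omega
    refine ⟨j, ?_, ?_, p, fun a => ⟨hp1 a, (hBB a).1, hp3 a, fun l' hl' hd => ?_⟩⟩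
    · intro a b hab
      have := (W.orderEmbOfFin rfl).injective hab
      exact Fin.castLE_injective hW this
    · intro a ha
      have := hU (j a) ha (p a) (hp1 a) (hp3 a)
      have := (hBB a).2
      omega
    · have := hcop l' (j a) hl' (p a) (hp1 a) hd (hp3 a)
      have := (hBB a).2
      omega

/-- the exponents in the product -/
theorem factorization_prod_exact (a : Fin M → ℕ) (ha : ∀ l, a l ≠ 0) (e : Fin M → ℕ) (l0 : Fin M)
    {p : ℕ} (h : ∀ l, l ≠ l0 → ¬ p ∣ a l) :
    (∏ l, a l ^ e l).factorization p = e l0 * (a l0).factorization p := by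
  classical
  rw [Nat.factorization_prod fun l _ => pow_ne_zero _ (ha l), Finsupp.finsetSum_apply,
    Finset.sum_eq_single l0]
  · rw [Nat.factorization_pow]
    rfl
  · intro l _ hl
    rw [Nat.factorization_pow, Finsupp.smul_apply, Nat.factorization_eq_zero_of_not_dvd (h l hl),
      smul_zero]
  · intro h1
    exact absurd (Finset.mem_univ _) h1


end Pool.Agent.U163.ZP

namespace Pool.Agent.U163.ZP

open MvPolynomial Finset

variable {M N : ℕ}

theorem pow_prod_ne {f : Fin M → MvPolynomial (Fin N) ℚ} (hne : ∀ l, f l ≠ 0)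
    (hu : ∀ l, ¬ IsUnit (f l)) (hcop : ∀ l l', l ≠ l' → IsRelPrime (f l) (f l'))
    {m m' : Fin M → ℕ} {α : ℚ} (l : Fin M) (hl : m' l < m l) :
    ∏ l, f l ^ m l ≠ C α * ∏ l, f l ^ m' l := by
  classical
  intro h
  have h0 : ∏ l, f l ^ m l ≠ 0 := Finset.prod_ne_zero_iff.2 fun l _ => pow_ne_zero _ (hne l)
  have hα : α ≠ 0 := by
    rintro rfl
    rw [C_0, zero_mul] at h
    exact h0 h
  rw [← Finset.mul_prod_erase _ _ (Finset.mem_univ l),
    ← Finset.mul_prod_erase univ (fun l => f l ^ m' l) (Finset.mem_univ l)] at h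
  obtain ⟨k, hk⟩ : ∃ k, m l = m' l + (k + 1) := ⟨m l - m' l - 1, by omega⟩
  rw [hk, pow_add] at h
  have h1 : f l ^ (k + 1) * ∏ x ∈ univ.erase l, f x ^ m x =
      C α * ∏ x ∈ univ.erase l, f x ^ m' x := by
    apply mul_left_cancel₀ (pow_ne_zero (m' l) (hne l))
    linear_combination h
  have h2 : f l ∣ C α * ∏ x ∈ univ.erase l, f x ^ m' x := by
    rw [← h1, pow_succ', mul_assoc]
    exact dvd_mul_right _ _
  have h3 : IsRelPrime (f l) (∏ x ∈ univ.erase l, f x ^ m' x) := by
    refine IsRelPrime.prod_right fun x hx => IsRelPrime.pow_right ?_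
    exact hcop l x (Finset.ne_of_mem_erase hx).symm
  have h4 := h3.dvd_of_dvd_mul_right h2
  exact hu l (isUnit_of_dvd_unit h4 ((isUnit_iff_ne_zero.2 hα).map C))

theorem not_mem_bot {f : Fin M → MvPolynomial (Fin N) ℚ} (hne : ∀ l, f l ≠ 0)
    (hu : ∀ l, ¬ IsUnit (f l)) (hcop : ∀ l l', l ≠ l' → IsRelPrime (f l) (f l'))
    {m m' : Fin M → ℕ} (hmm : m ≠ m') (α : ℚ) :
    ∏ l, f l ^ m l - C α * ∏ l, f l ^ m' l ∉ (⊥ : Ideal (MvPolynomial (Fin N) ℚ)) := by
  classical
  intro h
  rw [Ideal.mem_bot, sub_eq_zero] at h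
  obtain ⟨l, hl⟩ := Function.ne_iff.1 hmm
  rcases lt_or_gt_of_ne hl with h1 | h1
  · have hα : α ≠ 0 := by
      rintro rfl
      rw [C_0, zero_mul] at h
      exact (Finset.prod_ne_zero_iff.2 fun l _ => pow_ne_zero _ (hne l)) h
    refine pow_prod_ne hne hu hcop (m := m') (m' := m) (α := α⁻¹) l h1 ?_
    rw [h, ← mul_assoc, ← C_mul, inv_mul_cancel₀ hα, C_1, one_mul]
  · exact pow_prod_ne hne hu hcop l h1 h

theorem trdeg_bot (N : ℕ) :
    Algebra.trdeg ℚ (MvPolynomial (Fin N) ℚ ⧸ (⊥ : Ideal (MvPolynomial (Fin N) ℚ))) ≤ N := by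
  rw [AlgEquiv.trdeg_eq (AlgEquiv.quotientBot ℚ (MvPolynomial (Fin N) ℚ)),
    MvPolynomial.trdeg_of_isDomain]
  simp

theorem not_isUnit_toQ {f : MvPolynomial (Fin N) ℤ} (hf : 0 < f.totalDegree) :
    ¬ IsUnit (map (Int.castRingHom ℚ) f) := by
  intro h
  have h1 := (MvPolynomial.isUnit_iff_totalDegree_of_isReduced.1 h).2
  have h2 : (map (Int.castRingHom ℚ) f).totalDegree = f.totalDegree := by
    unfold totalDegree
    rw [MvPolynomial.support_map_of_injective _ (RingHom.injective_int (Int.castRingHom ℚ))]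
  omega

theorem toQ_ne_zero {f : MvPolynomial (Fin N) ℤ} (hf : 0 < f.totalDegree) :
    map (Int.castRingHom ℚ) f ≠ 0 := by
  intro h
  have h1 := map_injective (σ := Fin N) (Int.castRingHom ℚ)
    (RingHom.injective_int (Int.castRingHom ℚ)) (h.trans (map_zero _).symm)
  rw [h1, totalDegree_zero] at hf
  exact lt_irrefl _ hf

end Pool.Agent.U163.ZP
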