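import Pool.Agent.U163.ZP.ElimNF
import Pool.Agent.H39R3.Tor.SUnit

/-!
# Places outside of `S` at which values of functions on a variety over a number field vanish
-/

set_option autoImplicit false

namespace Pool.Agent.U163.ZP.NF

open MvPolynomial Finset IsDedekindDomain NumberField Pool.Agent.N449.SP

variable {M N : ℕ} {L : Type} [Field L]

theorem pow_prod_ne {f : Fin M → MvPolynomial (Fin N) L} (hne : ∀ l, f l ≠ 0)
    (hu : ∀ l, ¬ IsUnit (f l)) (hcop : ∀ l l', l ≠ l' → IsRelPrime (f l) (f l'))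
    {m m' : Fin M → ℕ} {α : L} (l : Fin M) (hl : m' l < m l) :
    ∏ l, f l ^ m l ≠ C α * ∏ l, f l ^ m' l := by
  classical
  intro h
  have h0 : ∏ l, f l ^ m l ≠ 0 := Finset.prod_ne_zero_iff.2 fun l _ => pow_ne_zero _ (hne l)
  have hα : α ≠ 0 := by
    rintro rfl
    rw [C_0, zero_mul] at h
    exact h0 h
  rw [← Finset.mul_prod_erase _ _ (Finset.mem_univ l),
    ← Finset.mul_prod_erase univ (fun l => f l ^ m' l) (Finset.mem_univ l)] at h
  obtain ⟨k, hk⟩ : ∃ k, m l = m' l + (k + 1) := ⟨m l - m' l - 1, by omega⟩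
  rw [hk, pow_add] at h
  have h1 : f l ^ (k + 1) * ∏ x ∈ univ.erase l, f x ^ m x =
      C α * ∏ x ∈ univ.erase l, f x ^ m' x := by
    apply mul_left_cancel₀ (pow_ne_zero (m' l) (hne l))
    linear_combination h
  have h2 : f l ∣ C α * ∏ x ∈ univ.erase l, f x ^ m' x := by
    rw [← h1, pow_succ', mul_assoc]
    exact dvd_mul_right _ _
  have h3 : IsRelPrime (f l) (∏ x ∈ univ.erase l, f x ^ m' x) := by
    refine IsRelPrime.prod_right fun x hx => IsRelPrime.pow_right ?_
    exact hcop l x (Finset.ne_of_mem_erase hx).symm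
  have h4 := h3.dvd_of_dvd_mul_right h2
  exact hu l (isUnit_of_dvd_unit h4 ((isUnit_iff_ne_zero.2 hα).map C))

theorem not_mem_bot {f : Fin M → MvPolynomial (Fin N) L} (hne : ∀ l, f l ≠ 0)
    (hu : ∀ l, ¬ IsUnit (f l)) (hcop : ∀ l l', l ≠ l' → IsRelPrime (f l) (f l'))
    {m m' : Fin M → ℕ} (hmm : m ≠ m') (α : L) :
    ∏ l, f l ^ m l - C α * ∏ l, f l ^ m' l ∉ (⊥ : Ideal (MvPolynomial (Fin N) L)) := by
  classical
  intro h
  rw [Ideal.mem_bot, sub_eq_zero] at h
  obtain ⟨l, hl⟩ := Function.ne_iff.1 hmm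
  rcases lt_or_gt_of_ne hl with h1 | h1
  · have hα : α ≠ 0 := by
      rintro rfl
      rw [C_0, zero_mul] at h
      exact (Finset.prod_ne_zero_iff.2 fun l _ => pow_ne_zero _ (hne l)) h
    refine pow_prod_ne hne hu hcop (m := m') (m' := m) (α := α⁻¹) l h1 ?_
    rw [h, ← mul_assoc, ← C_mul, inv_mul_cancel₀ hα, C_1, one_mul]
  · exact pow_prod_ne hne hu hcop l h1 h

theorem trdeg_bot (N : ℕ) :
    Algebra.trdeg L (MvPolynomial (Fin N) L ⧸ (⊥ : Ideal (MvPolynomial (Fin N) L))) ≤ N := by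
  rw [AlgEquiv.trdeg_eq (AlgEquiv.quotientBot L (MvPolynomial (Fin N) L)),
    MvPolynomial.trdeg_of_isDomain]
  simp

theorem not_isUnit_of_totalDegree {f : MvPolynomial (Fin N) L} (hf : 0 < f.totalDegree) :
    ¬ IsUnit f := by
  intro h
  have h1 := (MvPolynomial.isUnit_iff_totalDegree_of_isReduced.1 h).2
  omega

theorem ne_zero_of_totalDegree {f : MvPolynomial (Fin N) L} (hf : 0 < f.totalDegree) : f ≠ 0 := by
  rintro rfl
  rw [totalDegree_zero] at hf
  exact lt_irrefl _ hf

/-- Outside of one proper closed subset of the variety of `P` the following holds for the points at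
which the `F l` have `S`-integral values: among any `r + 1` of the `F l` one has a value which
vanishes modulo a prime ideal outside of `S`. -/
theorem core_places [NumberField L] (P : Ideal (MvPolynomial (Fin N) L)) [hP : P.IsPrime] (r : ℕ)
    (hM : r + 1 ≤ M) (hr : Algebra.trdeg L (MvPolynomial (Fin N) L ⧸ P) ≤ r)
    (F : Fin M → MvPolynomial (Fin N) L)
    (hmul : ∀ s : Finset (Fin M), s.card = r + 1 → ∀ m m' : Fin M → ℕ,
      (∀ l, l ∉ s → m l = 0 ∧ m' l = 0) → m ≠ m' → ∀ α : L,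
      ∏ l, F l ^ m l - C α * ∏ l, F l ^ m' l ∉ P)
    (S : Finset (HeightOneSpectrum (𝓞 L))) :
    ∃ G ∉ P, ((∀ f ∈ P, ∀ j, homogeneousComponent j f ∈ P) →
        (∀ l, ∃ j, (F l).IsHomogeneous j) → ∃ j, G.IsHomogeneous j) ∧
      ∀ t : Fin N → L, (∀ f ∈ P, eval t f = 0) →
        (∀ l, ∀ v ∉ S, v.valuation L (eval t (F l)) ≤ 1) → eval t G ≠ 0 →
        (∀ l, eval t (F l) ≠ 0) ∧ ∀ s : Finset (Fin M), s.card = r + 1 →
          ∃ l ∈ s, ∃ v ∉ S, v.valuation L (eval t (F l)) < 1 := by
  classical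
  obtain ⟨G, hG, hhom, h⟩ := core P r hM hr F hmul ((S : Set (HeightOneSpectrum (𝓞 L))).unit L)
    (Pool.Agent.H39R3.Tor.sunit_fg L _ S.finite_toSet)
  refine ⟨G, hG, hhom, fun t ht hint hGt => ?_⟩
  obtain ⟨h0, hs⟩ := h t ht hGt
  refine ⟨h0, fun s hcard => ?_⟩
  obtain ⟨l, hl, hne⟩ := hs s hcard
  refine ⟨l, hl, ?_⟩
  by_contra hcon
  push Not at hcon
  apply hne
  refine ⟨Units.mk0 _ (h0 l), ?_, Or.inl rfl⟩
  intro v hv
  exact le_antisymm (hint l v (fun h => hv (by exact_mod_cast h))) (hcon v (fun h => hv (by exact_mod_cast h)))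

/-- The prime ideal of the ring of `S`-integers which belongs to a place outside of `S`. -/
theorem exists_prime (S : Set (HeightOneSpectrum (𝓞 L))) [NumberField L]
    (v : HeightOneSpectrum (𝓞 L)) (hv : v ∉ S) :
    ∃ 𝔭 : Ideal (S.integer L), 𝔭.IsPrime ∧ ∀ a : S.integer L, a ∈ 𝔭 ↔ v.valuation L (a : L) < 1 := by
  let I : Ideal (S.integer L) :=
    { carrier := {a | v.valuation L (a : L) < 1}
      add_mem' := by
        intro a b ha hb
        change v.valuation L ((a + b : S.integer L) : L) < 1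
        have ha' : v.valuation L (a : L) < 1 := ha
        have hb' : v.valuation L (b : L) < 1 := hb
        rw [AddMemClass.coe_add]
        exact Valuation.map_add_lt _ ha' hb'
      zero_mem' := by
        change v.valuation L ((0 : S.integer L) : L) < 1
        rw [ZeroMemClass.coe_zero, map_zero]
        exact zero_lt_one
      smul_mem' := by
        intro c a ha
        change v.valuation L ((c * a : S.integer L) : L) < 1
        have ha' : v.valuation L (a : L) < 1 := ha
        rw [MulMemClass.coe_mul, map_mul]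
        exact (mul_le_of_le_one_left' (c.2 v hv)).trans_lt ha' }
  refine ⟨I, ⟨?_, ?_⟩, fun a => Iff.rfl⟩
  · intro h
    have h1 : (1 : S.integer L) ∈ I := (Ideal.eq_top_iff_one _).1 h
    change v.valuation L ((1 : S.integer L) : L) < 1 at h1
    rw [OneMemClass.coe_one, map_one] at h1
    exact lt_irrefl _ h1
  · intro a b hab
    change v.valuation L ((a * b : S.integer L) : L) < 1 at hab
    rw [MulMemClass.coe_mul, map_mul] at hab
    by_contra hcon
    push Not at hcon
    obtain ⟨h1, h2⟩ := hcon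
    have h1' : ¬ v.valuation L (a : L) < 1 := h1
    have h2' : ¬ v.valuation L (b : L) < 1 := h2
    have h3 : v.valuation L (a : L) = 1 := le_antisymm (a.2 v hv) (not_lt.1 h1')
    have h4 : v.valuation L (b : L) = 1 := le_antisymm (b.2 v hv) (not_lt.1 h2')
    rw [h3, h4, one_mul] at hab
    exact lt_irrefl _ hab

end Pool.Agent.U163.ZP.NF
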