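import Pool.Agent.U163.ZP.Elim

/-!
# Points of a variety over a number field with `r + 1` values in a finitely generated group

`V` an irreducible affine variety over a number field `L`, of dimension at most `r`, `F_1, …, F_M`
functions on `V`, any `r + 1` of which are multiplicatively independent modulo constants. For a finitely
generated subgroup `Γ` of `Lˣ` the points of `V (L)` at which `r + 1` of the `F_l` have values in `± Γ` are
not Zariski dense.
-/

set_option autoImplicit false

namespace Pool.Agent.U163.ZP.NF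

open MvPolynomial Finset Pool.Agent.N449.SP

variable {M : ℕ} {L : Type} [Field L]

/-- the part of a polynomial with monomials in `J` -/
noncomputable def part (f : MvPolynomial (Fin M) L) (J : Finset (Fin M →₀ ℕ)) :
    MvPolynomial (Fin M) L :=
  ∑ m ∈ J, monomial m (coeff m f)

theorem coeff_part (f : MvPolynomial (Fin M) L) (J : Finset (Fin M →₀ ℕ)) (m : Fin M →₀ ℕ) :
    coeff m (part f J) = if m ∈ J then coeff m f else 0 := by
  classical
  unfold part
  rw [coeff_sum]
  simp only [coeff_monomial]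
  rw [Finset.sum_ite_eq']

theorem support_part (f : MvPolynomial (Fin M) L) (J : Finset (Fin M →₀ ℕ)) (hJ : J ⊆ f.support) :
    (part f J).support = J := by
  classical
  ext m
  rw [mem_support_iff, coeff_part]
  by_cases h : m ∈ J
  · rw [if_pos h]
    exact ⟨fun _ => h, fun _ => mem_support_iff.1 (hJ h)⟩
  · rw [if_neg h]
    exact ⟨fun h1 => absurd rfl h1, fun h1 => absurd h1 h⟩

/-- the term of the monomial `m` at `x` -/
noncomputable def term (f : MvPolynomial (Fin M) L) (x : Fin M → L) (m : Fin M →₀ ℕ) : L :=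
  coeff m f * m.prod fun i e => x i ^ e

theorem eval_part (f : MvPolynomial (Fin M) L) (J : Finset (Fin M →₀ ℕ)) (x : Fin M → L) :
    eval x (part f J) = ∑ m ∈ J, term f x m := by
  unfold part term
  rw [map_sum]
  exact Finset.sum_congr rfl fun m _ => by rw [eval_monomial]

theorem part_support (f : MvPolynomial (Fin M) L) : part f f.support = f :=
  (MvPolynomial.support_sum_monomial_coeff f)

theorem Pm_mul {Γ : Subgroup Lˣ} {x y : L} (hx : x ∈ Pm Γ) (hy : y ∈ Pm Γ) : x * y ∈ Pm Γ := by
  obtain ⟨u, hu, h1⟩ := hx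
  obtain ⟨v, hv, h2⟩ := hy
  refine ⟨u * v, mul_mem hu hv, ?_⟩
  rw [Units.val_mul]
  rcases h1 with rfl | rfl <;> rcases h2 with rfl | rfl
  · left; rfl
  · right; ring
  · right; ring
  · left; ring

theorem Pm_one (Γ : Subgroup Lˣ) : (1 : L) ∈ Pm Γ := ⟨1, one_mem _, Or.inl rfl⟩

theorem Pm_pow {Γ : Subgroup Lˣ} {x : L} (hx : x ∈ Pm Γ) (k : ℕ) : x ^ k ∈ Pm Γ := by
  induction k with
  | zero => rw [pow_zero]; exact Pm_one Γ
  | succ k ih => rw [pow_succ]; exact Pm_mul ih hx

theorem Pm_mono {Γ Δ : Subgroup Lˣ} (h : Γ ≤ Δ) {x : L} (hx : x ∈ Pm Γ) : x ∈ Pm Δ := by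
  obtain ⟨u, hu, h1⟩ := hx
  exact ⟨u, h hu, h1⟩

theorem Pm_ne {Γ : Subgroup Lˣ} {x : L} (hx : x ∈ Pm Γ) : x ≠ 0 := by
  obtain ⟨u, hu, rfl | rfl⟩ := hx
  · exact u.ne_zero
  · exact neg_ne_zero.2 u.ne_zero

/-- **Points with coordinates in a finitely generated group are not dense.** -/
theorem elim [NumberField L] (P : Ideal (MvPolynomial (Fin M) L)) [hP : P.IsPrime]
    (s : Finset (Fin M))
    (hs : s.Nonempty) (h1 : ∃ f ∈ P, f ≠ 0 ∧ ∀ m ∈ f.support, m.support ⊆ s)
    (h2 : ∀ m m' : Fin M →₀ ℕ, m.support ⊆ s → m'.support ⊆ s → m ≠ m' → ∀ α : L,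
      monomial m 1 - monomial m' α ∉ P) (Γ : Subgroup Lˣ) (hΓ : Γ.FG) :
    ∃ G ∉ P, ∀ t : Fin M → L, (∀ f ∈ P, eval t f = 0) → (∀ l ∈ s, t l ∈ Pm Γ) →
      eval t G = 0 := by
  classical
  -- no monomial in `s` is in `P`
  have hmon : ∀ m : Fin M →₀ ℕ, m.support ⊆ s → ∀ a : L, a ≠ 0 → monomial m a ∉ P := by
    intro m hm a ha hmem
    obtain ⟨l, hl⟩ := hs
    have hne : m ≠ m + Finsupp.single l 1 := by
      intro h
      have := DFunLike.congr_fun h l
      rw [Finsupp.add_apply, Finsupp.single_eq_same] at this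
      omega
    refine h2 m (m + Finsupp.single l 1) hm ?_ hne 0 ?_
    · refine Finsupp.support_add.trans (Finset.union_subset hm ?_)
      exact Finsupp.support_single_subset.trans (Finset.singleton_subset_iff.2 hl)
    · rw [map_zero, sub_zero]
      have h3 := P.mul_mem_left (C a⁻¹) hmem
      rwa [C_mul_monomial, inv_mul_cancel₀ ha] at h3
  -- a relation with the smallest number of terms
  have hex : ∃ n : ℕ, ∃ f ∈ P, f ≠ 0 ∧ (∀ m ∈ f.support, m.support ⊆ s) ∧ f.support.card = n := by
    obtain ⟨f, hf, hf0, hfs⟩ := h1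
    exact ⟨_, f, hf, hf0, hfs, rfl⟩
  obtain ⟨f, hf, hf0, hfs, hfn⟩ := Nat.find_spec hex
  have hmin : ∀ g ∈ P, g ≠ 0 → (∀ m ∈ g.support, m.support ⊆ s) →
      f.support.card ≤ g.support.card := by
    intro g hg hg0 hgs
    rw [hfn]
    exact Nat.find_min' hex ⟨g, hg, hg0, hgs, rfl⟩
  -- at least two terms
  have hne : f.support.Nonempty := by
    rw [Finset.nonempty_iff_ne_empty]
    intro h
    exact hf0 (MvPolynomial.support_eq_empty.1 h)
  obtain ⟨m0, hm0⟩ := hne
  have hm1 : ∃ m1 ∈ f.support, m1 ≠ m0 := by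
    by_contra hcon
    push Not at hcon
    have h3 : f.support = {m0} := Finset.eq_singleton_iff_unique_mem.2 ⟨hm0, hcon⟩
    have h4 : f = monomial m0 (coeff m0 f) := by
      conv_lhs => rw [← part_support f, h3]
      unfold part
      rw [Finset.sum_singleton]
    apply hmon m0 (hfs m0 hm0) (coeff m0 f) (mem_support_iff.1 hm0)
    rwa [← h4]
  obtain ⟨m1, hm1, hm10⟩ := hm1
  -- the group
  set Δ : Subgroup Lˣ := Γ ⊔
    Subgroup.closure {u : Lˣ | ∃ m ∈ f.support, (u : L) = coeff m f} with hΔ
  have hfg : Δ.FG := by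
    refine hΓ.sup ?_
    refine (Subgroup.fg_iff _).2 ⟨_, rfl, ?_⟩
    have h3 : ((fun u : Lˣ => (u : L)) '' {u : Lˣ | ∃ m ∈ f.support, (u : L) = coeff m f}).Finite := by
      refine (f.support.finite_toSet.image (fun m => coeff m f)).subset ?_
      rintro _ ⟨u, ⟨m, hm, h⟩, rfl⟩
      exact ⟨m, hm, h.symm⟩
    exact h3.of_finite_image (Units.val_injective.injOn)
  obtain ⟨R, hR⟩ := ue_numberField L Δ hfg f.support.card
  let e : Fin f.support.card ≃ f.support := (f.support.equivFin).symm
  -- the polynomial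
  let G1 : MvPolynomial (Fin M) L := ∏ J ∈ (f.support.powerset.erase ∅).erase f.support, part f J
  let G2 : MvPolynomial (Fin M) L :=
    ∏ ρ ∈ R, (monomial m0 (coeff m0 f) - monomial m1 (ρ * coeff m1 f))
  refine ⟨G1 * G2, ?_, ?_⟩
  · intro hG
    rcases hP.mem_or_mem hG with h | h
    · obtain ⟨J, hJ, h3⟩ := (hP.prod_mem_iff).1 h
      rw [Finset.mem_erase, Finset.mem_erase, Finset.mem_powerset] at hJ
      obtain ⟨hJ1, hJ2, hJ3⟩ := hJ
      have h4 := support_part f J hJ3
      have h5 : part f J ≠ 0 := by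
        intro h0
        apply hJ2
        rw [← h4, h0]
        rfl
      have h6 := hmin _ h3 h5 (fun m hm => hfs m (hJ3 (h4 ▸ hm)))
      rw [h4] at h6
      exact hJ1 (Finset.eq_of_subset_of_card_le hJ3 h6)
    · obtain ⟨ρ, hρ, h3⟩ := (hP.prod_mem_iff).1 h
      have h0 : coeff m0 f ≠ 0 := mem_support_iff.1 hm0
      refine h2 m0 m1 (hfs m0 hm0) (hfs m1 hm1) (Ne.symm hm10) ((coeff m0 f)⁻¹ * (ρ * coeff m1 f)) ?_
      have h4 := P.mul_mem_left (C (coeff m0 f)⁻¹) h3
      rw [mul_sub, C_mul_monomial, C_mul_monomial, inv_mul_cancel₀ h0] at h4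
      exact h4
  · intro x hV ht
    have hxΔ : ∀ l ∈ s, x l ∈ Pm Δ := fun l hl => Pm_mono le_sup_left (ht l hl)
    have hterm : ∀ m ∈ f.support, term f x m ∈ Pm Δ := by
      intro m hm
      refine Pm_mul ?_ ?_
      · have h0 : coeff m f ≠ 0 := mem_support_iff.1 hm
        refine ⟨Units.mk0 _ h0, (le_sup_right : _ ≤ Δ) (Subgroup.subset_closure ⟨m, hm, rfl⟩),
          Or.inl rfl⟩
      · unfold Finsupp.prod
        have : ∀ T : Finset (Fin M), T ⊆ s → ∏ i ∈ T, x i ^ m i ∈ Pm Δ := by
          intro T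
          induction T using Finset.induction_on with
          | empty => intro _; rw [Finset.prod_empty]; exact Pm_one Δ
          | insert a T ha ih =>
            intro hT
            rw [Finset.prod_insert ha]
            exact Pm_mul (Pm_pow (hxΔ a (hT (Finset.mem_insert_self a T))) _)
              (ih ((Finset.subset_insert a T).trans hT))
        exact this _ (hfs m hm)
    have hsum : ∑ m ∈ f.support, term f x m = 0 := by
      rw [← eval_part, part_support]
      exact hV f hf
    rw [map_mul]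
    by_cases hJ : ∃ J ∈ (f.support.powerset.erase ∅).erase f.support, ∑ m ∈ J, term f x m = 0
    · obtain ⟨J, hJ1, hJ2⟩ := hJ
      have : eval x G1 = 0 := by
        change eval x (∏ J ∈ (f.support.powerset.erase ∅).erase f.support, part f J) = 0
        rw [map_prod]
        refine Finset.prod_eq_zero hJ1 ?_
        rw [eval_part]
        exact hJ2
      rw [this, zero_mul]
    · push Not at hJ
      have h3 := hR (fun i => term f x (e i)) (fun i => hterm _ (e i).2) (by
        rw [← hsum, ← Finset.sum_coe_sort f.support]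
        exact Fintype.sum_equiv e _ _ fun i => rfl) (by
        intro J hJne hJ0
        by_contra hJu
        have h5 : ∑ m ∈ J.map (e.toEmbedding.trans (Function.Embedding.subtype _)), term f x m = 0 := by
          rw [Finset.sum_map]
          exact hJ0
        refine hJ _ ?_ h5
        rw [Finset.mem_erase, Finset.mem_erase, Finset.mem_powerset]
        refine ⟨?_, ?_, ?_⟩
        · intro h6
          apply hJu
          rw [← Finset.card_eq_iff_eq_univ, Fintype.card_fin]
          have := congrArg Finset.card h6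
          rwa [Finset.card_map] at this
        · intro h6
          rw [Finset.map_eq_empty] at h6
          exact hJne.ne_empty h6
        · intro m hm
          rw [Finset.mem_map] at hm
          obtain ⟨i, -, rfl⟩ := hm
          exact (e i).2) (e.symm ⟨m0, hm0⟩) (e.symm ⟨m1, hm1⟩)
      simp only [Equiv.apply_symm_apply] at h3
      have h1ne : term f x m1 ≠ 0 := Pm_ne (hterm m1 hm1)
      have : eval x G2 = 0 := by
        change eval x (∏ ρ ∈ R, (monomial m0 (coeff m0 f) - monomial m1 (ρ * coeff m1 f))) = 0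
        rw [map_prod]
        refine Finset.prod_eq_zero h3 ?_
        rw [map_sub, eval_monomial, eval_monomial]
        have h4 : term f x m0 = term f x m0 / term f x m1 * term f x m1 :=
          (div_mul_cancel₀ _ h1ne).symm
        have h5 : coeff m0 f * m0.prod (fun i e => x i ^ e) = term f x m0 := rfl
        rw [h5, mul_assoc]
        have h6 : coeff m1 f * m1.prod (fun i e => x i ^ e) = term f x m1 := rfl
        rw [h6, ← h4, sub_self]
      rw [this, mul_zero]

theorem eval_scale {n : ℕ} {f : MvPolynomial (Fin M) L} (hf : f.IsHomogeneous n) (c : L)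
    (x : Fin M → L) : eval (fun i => c * x i) f = c ^ n * eval x f := by
  classical
  rw [eval_eq', eval_eq', Finset.mul_sum]
  refine Finset.sum_congr rfl fun d hd => ?_
  have h1 : d.degree = n := by
    have := hf (mem_support_iff.1 hd)
    rwa [Finsupp.degree_eq_weight_one]
  have h2 : ∏ i, (c * x i) ^ d i = c ^ n * ∏ i, x i ^ d i := by
    simp_rw [mul_pow]
    rw [Finset.prod_mul_distrib, Finset.prod_pow_eq_pow_sum]
    congr 2
    rw [← h1, Finsupp.degree_eq_sum]
  rw [h2]
  ring

/-- Over a cone the polynomial can be taken homogeneous. -/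
theorem homog [CharZero L] (P : Ideal (MvPolynomial (Fin M) L)) {G : MvPolynomial (Fin M) L}
    (hG : G ∉ P) (E : Set (Fin M → L)) (hE : ∀ x ∈ E, eval x G = 0)
    (hsc : ∀ x ∈ E, ∀ k : ℕ, (fun i => (2 : L) ^ k * x i) ∈ E) :
    ∃ G' ∉ P, (∃ j, G'.IsHomogeneous j) ∧ ∀ x ∈ E, eval x G' = 0 := by
  classical
  have h1 : ∃ j, homogeneousComponent j G ∉ P := by
    by_contra hcon
    push Not at hcon
    apply hG
    rw [← sum_homogeneousComponent G]
    exact P.sum_mem fun j _ => hcon j
  obtain ⟨j, hj⟩ := h1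
  refine ⟨_, hj, ⟨j, homogeneousComponent_isHomogeneous _ _⟩, fun x hx => ?_⟩
  let q : Polynomial L := ∑ i ∈ range (G.totalDegree + 1),
    Polynomial.C (eval x (homogeneousComponent i G)) * Polynomial.X ^ i
  have hq : ∀ k : ℕ, q.eval ((2 : L) ^ k) = 0 := by
    intro k
    have h2 := hE _ (hsc x hx k)
    rw [← sum_homogeneousComponent G, map_sum] at h2
    change Polynomial.eval _ (∑ i ∈ range (G.totalDegree + 1),
      Polynomial.C (eval x (homogeneousComponent i G)) * Polynomial.X ^ i) = 0
    rw [Polynomial.eval_finsetSum, ← h2]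
    refine Finset.sum_congr rfl fun i _ => ?_
    rw [eval_scale (homogeneousComponent_isHomogeneous _ _)]
    simp only [Polynomial.eval_mul, Polynomial.eval_C, Polynomial.eval_pow, Polynomial.eval_X]
    ring
  have hq0 : q = 0 := by
    refine Polynomial.eq_zero_of_infinite_isRoot q ?_
    refine Set.infinite_of_injective_forall_mem (f := fun k : ℕ => (2 : L) ^ k) ?_ hq
    intro a b hab
    exact Nat.pow_right_injective (le_refl 2) (by
      have : ((2 ^ a : ℕ) : L) = ((2 ^ b : ℕ) : L) := by push_cast; exact hab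
      exact_mod_cast this)
  rcases lt_or_ge j (G.totalDegree + 1) with hlt | hge
  · have h3 : q.coeff j = eval x (homogeneousComponent j G) := by
      change Polynomial.coeff (∑ i ∈ range (G.totalDegree + 1),
        Polynomial.C (eval x (homogeneousComponent i G)) * Polynomial.X ^ i) j = _
      rw [Polynomial.finsetSum_coeff]
      simp only [Polynomial.coeff_C_mul, Polynomial.coeff_X_pow, mul_ite, mul_one, mul_zero]
      rw [Finset.sum_ite_eq, if_pos (Finset.mem_range.2 hlt)]
    rw [← h3, hq0, Polynomial.coeff_zero]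
  · rw [homogeneousComponent_eq_zero _ _ (by omega), map_zero]

variable {N : ℕ}

/-- The set of the points of `V` at which the values of the `F l`, `l ∈ s`, are in a finitely generated
group is not dense. -/
theorem elimF [NumberField L] (P : Ideal (MvPolynomial (Fin N) L)) [hP : P.IsPrime] (r : ℕ)
    (hr : Algebra.trdeg L (MvPolynomial (Fin N) L ⧸ P) ≤ r)
    (F : Fin M → MvPolynomial (Fin N) L) (s : Finset (Fin M)) (hs : s.card = r + 1)
    (hmul : ∀ m m' : Fin M →₀ ℕ, m.support ⊆ s → m'.support ⊆ s → m ≠ m' → ∀ α : L,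
      ∏ l, F l ^ m l - C α * ∏ l, F l ^ m' l ∉ P) (Γ : Subgroup Lˣ) (hΓ : Γ.FG) :
    ∃ G ∉ P, ∀ t : Fin N → L, (∀ f ∈ P, eval t f = 0) → (∀ l ∈ s, eval t (F l) ∈ Pm Γ) →
      eval t G = 0 := by
  classical
  let φ : MvPolynomial (Fin M) L →ₐ[L] MvPolynomial (Fin N) L := aeval F
  let P' : Ideal (MvPolynomial (Fin M) L) := P.comap φ
  have hP' : P'.IsPrime := Ideal.comap_isPrime φ P
  have hφm : ∀ (m : Fin M →₀ ℕ) (a : L), φ (monomial m a) = C a * ∏ l, F l ^ m l := by
    intro m a
    change aeval _ (monomial m a) = _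
    rw [aeval_monomial, MvPolynomial.algebraMap_eq, Finsupp.prod_fintype _ _ (fun i => pow_zero _)]
  obtain ⟨G, hG, hGE⟩ := elim P' s (Finset.card_pos.1 (by omega)) (by
      -- algebraic dependence
      have hdep : ¬ AlgebraicIndependent L
          (fun l : s => (Ideal.Quotient.mk P (F l) : MvPolynomial (Fin N) L ⧸ P)) := by
        intro h
        have h1 := h.cardinalMk_le_trdeg.trans hr
        rw [Cardinal.mk_coe_finset, hs] at h1
        have h2 : r + 1 ≤ r := by exact_mod_cast h1
        omega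
      rw [algebraicIndependent_iff] at hdep
      push Not at hdep
      obtain ⟨f, hf, hf0⟩ := hdep
      refine ⟨rename (fun l : s => (l : Fin M)) f, ?_, ?_, ?_⟩
      · change φ (rename _ f) ∈ P
        rw [← Ideal.Quotient.eq_zero_iff_mem]
        change Ideal.Quotient.mk P (aeval _ (rename _ f)) = 0
        rw [aeval_rename]
        have h3 : ∀ g : MvPolynomial s L, Ideal.Quotient.mk P
            (aeval (F ∘ fun l : s => (l : Fin M)) g) =
            aeval (fun l : s => (Ideal.Quotient.mk P (F l) : MvPolynomial (Fin N) L ⧸ P)) g := by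
          intro g
          have h4 := MvPolynomial.comp_aeval_apply (Ideal.Quotient.mkₐ L P)
            (f := F ∘ fun l : s => (l : Fin M)) (p := g)
          exact h4
        rw [h3]
        exact hf
      · intro h
        exact hf0 ((rename_injective _ Subtype.val_injective) (by rw [h, map_zero]))
      · intro m hm
        rw [support_rename_of_injective Subtype.val_injective, Finset.mem_image] at hm
        obtain ⟨m', -, rfl⟩ := hm
        intro l hl
        have h5 := Finsupp.mapDomain_support hl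
        rw [Finset.mem_image] at h5
        obtain ⟨l', -, rfl⟩ := h5
        exact l'.2)
    (by
      intro m m' hm hm' hne α hmem
      apply hmul m m' hm hm' hne α
      have h1 : φ (monomial m 1 - monomial m' α) ∈ P := hmem
      rw [map_sub, hφm, hφm, C_1, one_mul] at h1
      exact h1) Γ hΓ
  refine ⟨φ G, hG, fun t hV ht => ?_⟩
  have hcomp : ∀ f : MvPolynomial (Fin M) L, eval t (φ f) = eval (fun l => eval t (F l)) f := by
    intro f
    change eval t (aeval _ f) = _
    rw [aeval_def, MvPolynomial.algebraMap_eq, eval_eval₂]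
    rw [eval]
    congr 1
    ext x; simp
  rw [hcomp]
  exact hGE _ (fun f hf => by rw [← hcomp]; exact hV _ hf) ht

/-- Outside of one proper closed subset of the variety of `P`, among any `r + 1` of the values
`F l (t)` at least one is not in `± Γ`. -/
theorem core [NumberField L] (P : Ideal (MvPolynomial (Fin N) L)) [hP : P.IsPrime] (r : ℕ)
    (hM : r + 1 ≤ M) (hr : Algebra.trdeg L (MvPolynomial (Fin N) L ⧸ P) ≤ r)
    (F : Fin M → MvPolynomial (Fin N) L)
    (hmul : ∀ s : Finset (Fin M), s.card = r + 1 → ∀ m m' : Fin M → ℕ,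
      (∀ l, l ∉ s → m l = 0 ∧ m' l = 0) → m ≠ m' → ∀ α : L,
      ∏ l, F l ^ m l - C α * ∏ l, F l ^ m' l ∉ P) (Γ : Subgroup Lˣ) (hΓ : Γ.FG) :
    ∃ G ∉ P, ((∀ f ∈ P, ∀ j, homogeneousComponent j f ∈ P) →
        (∀ l, ∃ j, (F l).IsHomogeneous j) → ∃ j, G.IsHomogeneous j) ∧
      ∀ t : Fin N → L, (∀ f ∈ P, eval t f = 0) → eval t G ≠ 0 →
        (∀ l, eval t (F l) ≠ 0) ∧ ∀ s : Finset (Fin M), s.card = r + 1 →
          ∃ l ∈ s, eval t (F l) ∉ Pm Γ := by
  classical
  have h2ne : (2 : L) ≠ 0 := two_ne_zero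
  set Δ : Subgroup Lˣ := Γ ⊔ Subgroup.zpowers (Units.mk0 (2 : L) h2ne) with hΔ
  have hfg : Δ.FG := hΓ.sup ⟨{Units.mk0 (2 : L) h2ne}, by
    rw [Finset.coe_singleton, ← Subgroup.zpowers_eq_closure]⟩
  have h2Δ : (2 : L) ∈ Pm Δ :=
    ⟨Units.mk0 (2 : L) h2ne, (le_sup_right : _ ≤ Δ) (Subgroup.mem_zpowers _), Or.inl rfl⟩
  have hmul' : ∀ s : Finset (Fin M), s.card = r + 1 → ∀ m m' : Fin M →₀ ℕ, m.support ⊆ s →
      m'.support ⊆ s → m ≠ m' → ∀ α : L,
      ∏ l, F l ^ m l - C α * ∏ l, F l ^ m' l ∉ P := by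
    intro s hs a a' ha ha' hne α
    exact hmul s hs a a'
      (fun l hl => ⟨Finsupp.notMem_support_iff.1 fun h => hl (ha h),
        Finsupp.notMem_support_iff.1 fun h => hl (ha' h)⟩)
      (fun h => hne (DFunLike.coe_injective h)) α
  -- one set `s`
  have hone : ∀ s : Finset (Fin M), s.card = r + 1 → ∃ G ∉ P,
      ((∀ f ∈ P, ∀ j, homogeneousComponent j f ∈ P) → (∀ l, ∃ j, (F l).IsHomogeneous j) →
        ∃ j, G.IsHomogeneous j) ∧
      ∀ t : Fin N → L, (∀ f ∈ P, eval t f = 0) → (∀ l ∈ s, eval t (F l) ∈ Pm Δ) →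
        eval t G = 0 := by
    intro s hs
    obtain ⟨G, hG, hGE⟩ := elimF P r hr F s hs (hmul' s hs) Δ hfg
    by_cases hcone : (∀ f ∈ P, ∀ j, homogeneousComponent j f ∈ P) ∧
        ∀ l, ∃ j, (F l).IsHomogeneous j
    · obtain ⟨hcone, hFh⟩ := hcone
      choose d hd using hFh
      obtain ⟨G', hG', hj, hE⟩ := homog P hG
        {x | (∀ f ∈ P, eval x f = 0) ∧ ∀ l ∈ s, eval x (F l) ∈ Pm Δ}
        (by
          rintro x ⟨h1, h2⟩
          exact hGE x h1 h2)
        (by
          rintro x ⟨h1, h2⟩ k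
          refine ⟨?_, ?_⟩
          · intro f hf
            rw [← sum_homogeneousComponent f, map_sum]
            refine Finset.sum_eq_zero fun i _ => ?_
            rw [eval_scale (homogeneousComponent_isHomogeneous _ _), h1 _ (hcone f hf i), mul_zero]
          · intro l hl
            rw [eval_scale (hd l)]
            exact Pm_mul (Pm_pow (Pm_pow h2Δ _) _) (h2 l hl))
      exact ⟨G', hG', fun _ _ => hj, fun t h1 h2 => hE _ ⟨h1, h2⟩⟩
    · exact ⟨G, hG, fun h h' => absurd ⟨h, h'⟩ hcone, hGE⟩
  choose! Gs hGs1 hGs2 hGs3 using hone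
  -- the functions are not zero on `V`
  have hX : ∀ l : Fin M, F l ∉ P := by
    intro l hl
    obtain ⟨s, hls, hs⟩ : ∃ s : Finset (Fin M), {l} ⊆ s ∧ s.card = r + 1 := by
      obtain ⟨s, hs1, -, hs2⟩ := Finset.exists_subsuperset_card_eq (Finset.subset_univ {l})
        (n := r + 1) (by rw [Finset.card_singleton]; omega)
        (by rw [Finset.card_univ, Fintype.card_fin]; omega)
      exact ⟨s, hs1, hs2⟩
    refine hmul' s hs (Finsupp.single l 1) 0 ?_ (by simp) ?_ 0 ?_
    · exact Finsupp.support_single_subset.trans hls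
    · intro h
      have := DFunLike.congr_fun h l
      simp at this
    · rw [C_0, zero_mul, sub_zero]
      rw [Finset.prod_eq_single l]
      · rw [Finsupp.single_eq_same, pow_one]
        exact hl
      · intro l' _ hl'
        rw [Finsupp.single_eq_of_ne hl', pow_zero]
      · intro h
        exact absurd (Finset.mem_univ l) h
  refine ⟨(∏ s ∈ (univ : Finset (Fin M)).powersetCard (r + 1), Gs s) * ∏ l, F l, ?_, ?_, ?_⟩
  · intro h
    rcases hP.mem_or_mem h with h1 | h1
    · obtain ⟨s, hs, h2⟩ := (hP.prod_mem_iff).1 h1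
      exact hGs1 s (Finset.mem_powersetCard.1 hs).2 h2
    · obtain ⟨l, -, h2⟩ := (hP.prod_mem_iff).1 h1
      exact hX l h2
  · intro hcone hFh
    choose! d hd using fun s (hs : s.card = r + 1) => hGs2 s hs hcone hFh
    choose d' hd' using hFh
    refine ⟨(∑ s ∈ (univ : Finset (Fin M)).powersetCard (r + 1), d s) + ∑ l : Fin M, d' l, ?_⟩
    refine IsHomogeneous.mul ?_ ?_
    · exact IsHomogeneous.prod _ _ _ fun s hs => hd s (Finset.mem_powersetCard.1 hs).2
    · exact IsHomogeneous.prod _ _ _ fun l _ => hd' l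
  · intro t hV hG
    rw [map_mul, mul_ne_zero_iff, map_prod, map_prod, Finset.prod_ne_zero_iff,
      Finset.prod_ne_zero_iff] at hG
    obtain ⟨hG1, hG2⟩ := hG
    refine ⟨fun l => hG2 l (Finset.mem_univ l), fun s hs => ?_⟩
    by_contra hcon
    push Not at hcon
    apply hG1 s (Finset.mem_powersetCard.2 ⟨Finset.subset_univ _, hs⟩)
    exact hGs3 s hs t hV fun l hl => Pm_mono le_sup_left (hcon l hl)

end Pool.Agent.U163.ZP.NF
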